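import Pool.Agent.MP_7258fc_nt.H38.Final

namespace Pool.Agent.Results.MP_7258fc_nt.Identity

open PowerSeries
open scoped PowerSeries.WithPiTopology

/-- The Wang and Wang modulus nine identity in the ring of formal power series over the integers
(with the coefficientwise topology): the three products converge, and the double series
converges to the right-hand side. -/
theorem result :
    Multipliable (fun n : ℕ => if n % 9 = 1 ∨ n % 9 = 8 ∨ n % 9 = 3 ∨ n % 9 = 6 then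
      Ring.inverse ((1 - X ^ n : PowerSeries ℤ) ^ 2) else 1) ∧
    Multipliable (fun n : ℕ => if n % 9 = 3 ∨ n % 9 = 6 then
      Ring.inverse ((1 - X ^ n : PowerSeries ℤ) ^ 2) else 1) ∧
    Multipliable (fun n : ℕ => if n % 9 = 2 ∨ n % 9 = 7 ∨ n % 9 = 4 ∨ n % 9 = 5 then
      Ring.inverse (1 - X ^ n : PowerSeries ℤ) else 1) ∧
    HasSum
      (fun μ : ℕ × ℕ =>
        (X : PowerSeries ℤ) ^ ((μ.1 : ℤ) ^ 2 - 3 * (μ.1 : ℤ) * (μ.2 : ℤ) + 3 * (μ.2 : ℤ) ^ 2).toNat *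
          (Ring.inverse (∏ k ∈ Finset.range μ.1, (1 - X ^ (k + 1) : PowerSeries ℤ)) *
            Ring.inverse (∏ k ∈ Finset.range μ.2, (1 - X ^ (3 * (k + 1)) : PowerSeries ℤ))))
      ((∏' n : ℕ, if n % 9 = 1 ∨ n % 9 = 8 ∨ n % 9 = 3 ∨ n % 9 = 6 then
          Ring.inverse ((1 - X ^ n : PowerSeries ℤ) ^ 2) else 1) +
        X * (∏' n : ℕ, if n % 9 = 3 ∨ n % 9 = 6 then
          Ring.inverse ((1 - X ^ n : PowerSeries ℤ) ^ 2) else 1) *
          ∏' n : ℕ, if n % 9 = 2 ∨ n % 9 = 7 ∨ n % 9 = 4 ∨ n % 9 = 5 then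
            Ring.inverse (1 - X ^ n : PowerSeries ℤ) else 1) := by
  obtain ⟨h1, h2, h3, h4⟩ := Pool.Agent.MP_7258fc_nt.H38.final
  refine ⟨h1, h2, h3, Pool.Agent.MP_7258fc_nt.H38.hs_congr h4 fun μ => ?_⟩
  simp only [Pool.Agent.MP_7258fc_nt.H38.tm, Pool.Agent.MP_7258fc_nt.H38.exF,
    Pool.Agent.MP_7258fc_nt.H38.wt, Pool.Agent.MP_7258fc_nt.H38.poch, one_mul]

end Pool.Agent.Results.MP_7258fc_nt.Identity
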